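import Pool.Agent.Y6.M.Stm

/-! Project EM: the bootstrap, recursive choice of the speeds (complex amplitudes). -/

open Set Filter Topology
open scoped ComplexConjugate

set_option autoImplicit false

namespace Pool.Agent.Y502.EM.Boot

open Pool.Agent.Y6.M

/-- a rapidly decreasing sequence -/
theorem exists_seq (K n β : ℕ → ℝ) (hK : ∀ m, 1 ≤ K m) (hn : ∀ m, 0 ≤ n m) (hβ : ∀ m, 0 < β m) :
    ∃ b : ℕ → ℝ, (∀ m, 0 < b m) ∧ (∀ m, b m ≤ β m) ∧
      ∀ m N, K m * ∑ i ∈ Finset.Ioc m N, n i * b i ≤ b m / 8 := by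
  set P : ℕ → ℝ := fun m => ∏ i ∈ Finset.range (m + 1), K i with hP
  have hP0 : ∀ m, (1 : ℝ) ≤ ∏ l ∈ Finset.range m, K l := by
    intro m
    induction m with
    | zero => simp
    | succ i ih =>
      rw [Finset.prod_range_succ]
      exact one_le_mul_of_one_le_of_one_le ih (hK i)
  have hP1 : ∀ m, 1 ≤ P m := fun m => hP0 (m + 1)
  have hKP : ∀ i m, i ≤ m → K i ≤ P m := by
    intro i m him
    induction m, him using Nat.le_induction with
    | base =>
      have : P i = (∏ l ∈ Finset.range i, K l) * K i := Finset.prod_range_succ _ _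
      rw [this]
      exact le_mul_of_one_le_left (by linarith [hK i]) (hP0 i)
    | succ m hm ih =>
      have : P (m + 1) = P m * K (m + 1) := Finset.prod_range_succ _ _
      rw [this]
      exact ih.trans (le_mul_of_one_le_right (by linarith [hP1 m]) (hK _))
  clear_value P
  obtain ⟨b, hb0, hbs⟩ : ∃ b : ℕ → ℝ, b 0 = β 0 ∧
      ∀ m, b (m + 1) = min (β (m + 1)) (b m / (16 * P m * (n (m + 1) + 1))) :=
    ⟨fun m => Nat.rec (β 0) (fun m x => min (β (m + 1)) (x / (16 * P m * (n (m + 1) + 1)))) m,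
      rfl, fun m => rfl⟩
  have hden : ∀ m, 0 < 16 * P m * (n (m + 1) + 1) := fun m => by
    have := hP1 m
    have := hn (m + 1)
    positivity
  have hpos : ∀ m, 0 < b m := by
    intro m
    induction m with
    | zero => rw [hb0]; exact hβ 0
    | succ m ih =>
      rw [hbs]
      exact lt_min (hβ _) (div_pos ih (hden m))
  have hle : ∀ m, b m ≤ β m := by
    intro m
    cases m with
    | zero => exact hb0.le
    | succ m => rw [hbs]; exact min_le_left _ _
  have hstep : ∀ m, b (m + 1) * (16 * P m * (n (m + 1) + 1)) ≤ b m := by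
    intro m
    rw [← le_div_iff₀ (hden m), hbs]
    exact min_le_right _ _
  have h2 : ∀ m, 2 * b (m + 1) ≤ b m := by
    intro m
    have h1 := hstep m
    have h3 := hP1 m
    have h4 := hn (m + 1)
    have h5 := hpos (m + 1)
    have h6 : 1 ≤ P m * (n (m + 1) + 1) := one_le_mul_of_one_le_of_one_le h3 (by linarith)
    nlinarith
  have h3 : ∀ i m, i ≤ m → 16 * K i * (n (m + 1) * b (m + 1)) ≤ b m := by
    intro i m him
    have h1 := hstep m
    have h4 := hKP i m him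
    have h5 := hpos (m + 1)
    have h6 := hn (m + 1)
    have h7 : 0 ≤ n (m + 1) * b (m + 1) := mul_nonneg h6 h5.le
    have h8 : K i * (n (m + 1) * b (m + 1)) ≤ P m * (n (m + 1) * b (m + 1)) :=
      mul_le_mul_of_nonneg_right h4 h7
    have h9 : 0 ≤ P m * b (m + 1) := mul_nonneg (by linarith [hP1 m]) h5.le
    nlinarith
  refine ⟨b, hpos, hle, fun m N => ?_⟩
  have key : ∀ N, m ≤ N → 16 * K m * ∑ i ∈ Finset.Ioc m N, n i * b i ≤ 2 * b m - 2 * b N := by
    intro N hN
    induction N, hN using Nat.le_induction with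
    | base => simp
    | succ N hN ih =>
      rw [← Finset.insert_Ioc_right_eq_Ioc_add_one hN, Finset.sum_insert (by simp), mul_add]
      have h4 := h3 m N hN
      have h5 := h2 N
      linarith
  rcases le_total m N with h | h
  · have h4 := key N h
    have h5 := hpos N
    nlinarith
  · rw [Finset.Ioc_eq_empty (by omega), Finset.sum_empty, mul_zero]
    have := hpos m
    positivity

/-- recursive choice of a sequence -/
theorem exists_rec (Φ : ℕ → (ℕ → ℝ) → ℝ) : ∃ S : ℕ → ℝ, ∀ m,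
    S m = Φ m (fun i => if i < m then S i else 0) := by
  let g : ℕ → ℕ → ℝ := fun m => Nat.rec (fun _ => 0) (fun m x => fun i => if i = m then Φ m x else x i) m
  have hg0 : g 0 = fun _ => 0 := rfl
  have hgs : ∀ m, g (m + 1) = fun i => if i = m then Φ m (g m) else g m i := fun m => rfl
  have key : ∀ m, g m = fun i => if i < m then g (i + 1) i else 0 := by
    intro m
    induction m with
    | zero => rw [hg0]; funext i; simp
    | succ m ih =>
      funext i
      by_cases him : i = m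
      · subst him
        rw [if_pos (Nat.lt_succ_self _)]
      · rw [hgs]
        show (if i = m then Φ m (g m) else g m i) = _
        rw [if_neg him, ih]
        show (if i < m then g (i + 1) i else 0) = _
        by_cases h : i < m
        · rw [if_pos h, if_pos (by omega)]
        · rw [if_neg h, if_neg (by omega)]
  refine ⟨fun m => g (m + 1) m, fun m => ?_⟩
  show g (m + 1) m = _
  rw [hgs]
  show (if m = m then Φ m (g m) else g m m) = _
  rw [if_pos rfl]
  congr 1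
  exact key m

/-- first exit -/
theorem exit {I : Type} (F : Finset I) (f : I → ℝ → ℂ) (B : I → ℝ) (hB : ∀ j, 0 < B j)
    (hc : ∀ j ∈ F, ContinuousOn (f j) (Icc 0 60)) (h0 : ∀ j ∈ F, f j 0 = 0)
    (hboot : ∀ θ ∈ Icc (0 : ℝ) 60, (∀ j ∈ F, ∀ t ∈ Icc 0 θ, ‖f j t‖ ≤ B j) →
      ∀ j ∈ F, ∀ t ∈ Icc 0 θ, ‖f j t‖ ≤ B j / 2) :
    ∀ j ∈ F, ∀ t ∈ Icc (0 : ℝ) 60, ‖f j t‖ ≤ B j := by
  classical
  by_contra hcon
  push Not at hcon
  obtain ⟨j₀, hj₀F, t₀, ht₀, hj₀⟩ := hcon
  set E : Set ℝ := ⋃ j ∈ F, (Icc (0 : ℝ) 60 ∩ (fun t => ‖f j t‖) ⁻¹' Ici (B j)) with hE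
  have hEc : IsClosed E := by
    refine F.finite_toSet.isClosed_biUnion fun j hj => ?_
    exact (hc j hj).norm.preimage_isClosed_of_isClosed isClosed_Icc isClosed_Ici
  have hEs : E ⊆ Icc (0 : ℝ) 60 := by
    intro t ht
    rw [hE, mem_iUnion₂] at ht
    obtain ⟨j, _, hj⟩ := ht
    exact hj.1
  have hEn : E.Nonempty := by
    refine ⟨t₀, ?_⟩
    rw [hE, mem_iUnion₂]
    exact ⟨j₀, hj₀F, ht₀, hj₀.le⟩
  obtain ⟨θ, hθE, hθmin⟩ := (isCompact_Icc.of_isClosed_subset hEc hEs).exists_isLeast hEn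
  have hθ := hEs hθE
  rw [hE, mem_iUnion₂] at hθE
  obtain ⟨j₁, hj₁, -, hj₁'⟩ := hθE
  have hθpos : 0 < θ := by
    rcases hθ.1.lt_or_eq with h | h
    · exact h
    · exfalso
      rw [← h] at hj₁'
      have h1 : B j₁ ≤ ‖f j₁ 0‖ := hj₁'
      rw [h0 j₁ hj₁, norm_zero] at h1
      linarith [hB j₁]
  have hlt : ∀ t ∈ Ico (0 : ℝ) θ, ∀ j ∈ F, ‖f j t‖ ≤ B j := by
    intro t ht j hj
    have ht60 : t ∈ Icc (0 : ℝ) 60 := ⟨ht.1, ht.2.le.trans hθ.2⟩
    by_contra h
    have : t ∈ E := by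
      rw [hE, mem_iUnion₂]
      exact ⟨j, hj, ht60, (not_le.1 h).le⟩
    exact absurd (hθmin this) (not_le.2 ht.2)
  have hhalf : ∀ t ∈ Ico (0 : ℝ) θ, ‖f j₁ t‖ ≤ B j₁ / 2 := by
    intro t ht
    have ht60 : t ∈ Icc (0 : ℝ) 60 := ⟨ht.1, ht.2.le.trans hθ.2⟩
    exact hboot t ht60 (fun j hj s hs => hlt s ⟨hs.1, hs.2.trans_lt ht.2⟩ j hj) j₁ hj₁ t
      ⟨ht.1, le_rfl⟩
  have h1 : ∀ᶠ t in 𝓝[Icc (0 : ℝ) 60] θ, B j₁ / 2 < ‖f j₁ t‖ := by
    refine ((hc j₁ hj₁).norm θ hθ).eventually (lt_mem_nhds ?_)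
    have : B j₁ ≤ ‖f j₁ θ‖ := hj₁'
    linarith [hB j₁]
  have hne : (𝓝[Ico (0 : ℝ) θ] θ).NeBot := right_nhdsWithin_Ico_neBot hθpos
  have hsub : Ico (0 : ℝ) θ ⊆ Icc 0 60 := fun t ht => ⟨ht.1, ht.2.le.trans hθ.2⟩
  obtain ⟨t, ht1, ht2⟩ := ((h1.filter_mono (nhdsWithin_mono θ hsub)).and self_mem_nhdsWithin).exists
  exact absurd (hhalf t ht2) (not_le.2 ht1)

section

variable {I : Type} (lv : I → ℕ) (σ : I → ℝ) (R : ℕ → ℝ)

/-- bound for the derivative of a mode -/
noncomputable def spd (S : ℕ → ℝ) (a : I) : ℝ :=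
  open Classical in
  (if σ a = 0 then 0 else |S (lv a)|) + R (lv a)

/-- bound for the derivative of `H` -/
noncomputable def hb (c : I → I → I → ℂ) (Q : I → Finset (I × I)) (S : ℕ → ℝ) (w : I) : ℝ :=
  ∑ p ∈ Q w, ‖c w p.1 p.2‖ * (1 + spd lv σ R S p.1 + spd lv σ R S p.2)

theorem spd_nonneg (hR : ∀ m, 1 ≤ R m) (S : ℕ → ℝ) (a : I) : 0 ≤ spd lv σ R S a := by
  unfold spd
  refine add_nonneg ?_ (zero_le_one.trans (hR _))
  split_ifs
  · exact le_rfl
  · exact abs_nonneg _

theorem hb_nonneg (hR : ∀ m, 1 ≤ R m) (c : I → I → I → ℂ) (Q : I → Finset (I × I))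
    (S : ℕ → ℝ) (w : I) : 0 ≤ hb lv σ R c Q S w :=
  Finset.sum_nonneg fun p _ => mul_nonneg (norm_nonneg _)
    (by linarith [spd_nonneg lv σ R hR S p.1, spd_nonneg lv σ R hR S p.2])

theorem hb_congr (c : I → I → I → ℂ) (Q : I → Finset (I × I))
    {S S' : ℕ → ℝ} (w : I) (hQ : ∀ p ∈ Q w, ∀ j, (j = p.1 ∨ j = p.2) → σ j ≠ 0 → lv j < lv w)
    (h : ∀ i < lv w, S i = S' i) : hb lv σ R c Q S w = hb lv σ R c Q S' w := by
  refine Finset.sum_congr rfl fun p hp => ?_
  have key : ∀ a, (a = p.1 ∨ a = p.2) → spd lv σ R S a = spd lv σ R S' a := by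
    intro a ha
    unfold spd
    by_cases h0 : σ a = 0
    · rw [if_pos h0, if_pos h0]
    · rw [if_neg h0, if_neg h0, h _ (hQ p hp a ha h0)]
  rw [key _ (Or.inl rfl), key _ (Or.inr rfl)]

end

theorem t_BOOT : Pool.Agent.Y6.M.S_AVG → Pool.Agent.Y6.M.S_DEC → Pool.Agent.Y6.M.S_BOOT := by
  intro hAVG hDEC I lv bar σ c β hKer hβ
  classical
  obtain ⟨R, hR1, hR2, hR3, -⟩ := hDEC I lv bar σ c hKer
  have hR0 : ∀ m, 0 ≤ R m := fun m => zero_le_one.trans (hR1 m)
  choose! Q hQ1 hQ3 using fun w => hR3 w (lv w)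
  have hGfin : ∀ m, {j | σ j ≠ 0 ∧ lv j = m}.Finite := fun m =>
    (hKer.fin m).subset fun j hj => le_of_eq hj.2
  set G : ℕ → Finset I := fun m => (hGfin m).toFinset with hG
  have hGm : ∀ m j, j ∈ G m ↔ (σ j ≠ 0 ∧ lv j = m) := fun m j => (hGfin m).mem_toFinset
  choose C hC1 hC using fun m => hAVG (R m) (G m).card (hR0 m)
  obtain ⟨b, hbpos, hbβ, hbsum⟩ := exists_seq (fun m => C m * R m) (fun m => ((G m).card : ℝ)) β
    (fun m => one_le_mul_of_one_le_of_one_le (hC1 m) (hR1 m)) (fun m => Nat.cast_nonneg _) hβ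
  set hm : ℕ → (ℕ → ℝ) → ℝ := fun m S => ∑ w ∈ G m, hb lv σ R c Q S w with hhm
  obtain ⟨S, hS⟩ := exists_rec (fun m s => max 1 (8 * C m * hm m s / b m))
  have hS1 : ∀ m, 1 ≤ S m := fun m => by rw [hS]; exact le_max_left _ _
  have hSh : ∀ m, 8 * C m * hm m S / b m ≤ S m := by
    intro m
    have h1 : hm m (fun i => if i < m then S i else 0) = hm m S := by
      refine Finset.sum_congr rfl fun w hw => ?_
      have how := (hGm m w).1 hw
      exact hb_congr lv σ R c Q w (hQ1 w how.1) fun i hi => if_pos (by rwa [how.2] at hi)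
    conv_rhs => rw [hS]
    rw [← h1]
    exact le_max_right _ _
  have hhm0 : ∀ m, 0 ≤ hm m S := fun m =>
    Finset.sum_nonneg fun w _ => hb_nonneg lv σ R hR1 c Q S w
  refine ⟨S, hS1, fun v hv N z hz => ?_⟩
  -- the modes of the levels `≤ N`
  set FF : Finset I := (hKer.fin N).toFinset with hFF
  have hFFm : ∀ j, j ∈ FF ↔ lv j ≤ N := fun j => (hKer.fin N).mem_toFinset
  have hFF0 : ∀ a, a ∉ FF → ∀ t, z a t = 0 := fun a ha t =>
    hz.zero a (not_le.1 fun h => ha ((hFFm a).2 h)) t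
  set F : Finset I := FF.filter (fun j => σ j ≠ 0) with hF
  have hFm : ∀ j, j ∈ F ↔ (lv j ≤ N ∧ σ j ≠ 0) := fun j => by
    rw [hF, Finset.mem_filter, hFFm]
  have hsumm : ∀ t, Summable (fun a => ‖z a t‖ ^ 2) := fun t =>
    summable_of_ne_finset_zero (s := FF) fun a ha => by rw [hFF0 a ha t, norm_zero]; norm_num
  have hadm : ∀ t ∈ Icc (0 : ℝ) 60, Adm σ (fun a => z a t) := fun t ht =>
    ⟨hsumm t, hz.energy t ht, summable_of_ne_finset_zero (s := FF) fun j hj => by
      rw [hFF0 j hj t, norm_zero, ite_self]⟩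
  have hone : ∀ a, ∀ t ∈ Icc (0 : ℝ) 60, ‖z a t‖ ≤ 1 := by
    intro a t ht
    have h1 : ‖z a t‖ ^ 2 ≤ 1 :=
      ((hsumm t).le_tsum a fun i _ => sq_nonneg _).trans (hz.energy t ht)
    have h2 : 0 ≤ ‖z a t‖ := norm_nonneg _
    nlinarith
  set dz : I → ℝ → ℂ := fun a t => if lv a ≤ N then
    Kz S lv σ (fun a => z a t) a + qd c (fun a => z a t) a else 0 with hdz
  have hder : ∀ a, ∀ t ∈ Icc (0 : ℝ) 60, HasDerivWithinAt (z a) (dz a t) (Icc 0 60) t := by
    intro a t ht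
    by_cases ha : lv a ≤ N
    · rw [hdz]
      show HasDerivWithinAt (z a) (if lv a ≤ N then _ else _) _ _
      rw [if_pos ha]
      exact hz.deriv a ha t ht
    · rw [hdz]
      show HasDerivWithinAt (z a) (if lv a ≤ N then _ else _) _ _
      rw [if_neg ha]
      have h1 : z a = fun _ => 0 := funext fun s => hz.zero a (not_le.1 ha) s
      rw [h1]
      exact hasDerivWithinAt_const _ _ _
  have hdzb : ∀ a, ∀ t ∈ Icc (0 : ℝ) 60, ‖dz a t‖ ≤ spd lv σ R S a := by
    intro a t ht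
    show ‖if lv a ≤ N then _ else _‖ ≤ _
    split_ifs with ha
    · have h1 := (hR2 _ (hadm t ht) a).2
      unfold spd
      refine (norm_add_le _ _).trans (add_le_add ?_ h1)
      show ‖Complex.I * ((S (lv a) * σ a : ℝ) : ℂ) * z a t‖ ≤ _
      rw [norm_mul, norm_mul, Complex.norm_I, one_mul, Complex.norm_real, Real.norm_eq_abs, abs_mul]
      split_ifs with h0
      · rw [h0, abs_zero, mul_zero, zero_mul]
      · rcases hKer.unit a with h | h
        · exact absurd h h0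
        · have h2 : |σ a| ≤ 1 := abs_le_one_iff_mul_self_le_one.2 (by rw [← sq, h])
          rw [mul_assoc]
          refine mul_le_of_le_one_right (abs_nonneg _) ?_
          exact mul_le_one₀ h2 (norm_nonneg _) (hone _ t ht)
    · rw [norm_zero]
      exact spd_nonneg lv σ R hR1 S a
  have hcont : ∀ a, ContinuousOn (z a) (Icc 0 60) := fun a t ht => (hder a t ht).continuousWithinAt
  have hz0 : ∀ j, σ j ≠ 0 → z j 0 = 0 := by
    intro j hj
    by_cases h : lv j ≤ N
    · rw [hz.init j h, hv.main j hj]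
    · exact hz.zero j (not_le.1 h) 0
  have hfin := exit F z (fun j => b (lv j)) (fun j => hbpos _)
    (fun j _ => hcont j) (fun j hj => hz0 j ((hFm j).1 hj).2) ?_
  · intro j hj t ht
    by_cases h : lv j ≤ N
    · exact (hfin j ((hFm j).2 ⟨h, hj⟩) t ht).trans (hbβ _)
    · rw [hz.zero j (not_le.1 h) t, norm_zero]
      exact (hβ _).le
  intro θ hθ hgood j hj t ht
  have hsub : Icc 0 θ ⊆ Icc (0 : ℝ) 60 := Icc_subset_Icc_right hθ.2
  set m := lv j with hmdef
  have hmN : m ≤ N := ((hFm j).1 hj).1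
  have hσj : σ j ≠ 0 := ((hFm j).1 hj).2
  set η : ℝ := R m * ∑ i ∈ Finset.Ioc m N, ((G i).card : ℝ) * b i with hη
  have hsum0 : 0 ≤ ∑ i ∈ Finset.Ioc m N, ((G i).card : ℝ) * b i :=
    Finset.sum_nonneg fun i _ => mul_nonneg (Nat.cast_nonneg _) (hbpos i).le
  have hη0 : 0 ≤ η := mul_nonneg (hR0 m) hsum0
  -- the tail
  have htail : ∀ s ∈ Icc (0 : ℝ) θ, tail lv σ m (fun a => z a s) ≤
      ∑ i ∈ G m, ‖z i s‖ + ∑ i ∈ Finset.Ioc m N, ((G i).card : ℝ) * b i := by
    intro s hs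
    have h1 : tail lv σ m (fun a => z a s) = ∑ i ∈ F, if m ≤ lv i then ‖z i s‖ else 0 := by
      have h1a : tail lv σ m (fun a => z a s) =
          ∑ i ∈ F, if σ i ≠ 0 ∧ m ≤ lv i then ‖z i s‖ else 0 := by
        refine tsum_eq_sum fun i hi => ?_
        show (if σ i ≠ 0 ∧ m ≤ lv i then ‖z i s‖ else 0) = 0
        by_cases h0 : σ i = 0
        · rw [if_neg (fun h => h.1 h0)]
        · have h2 : i ∉ FF := fun h => hi ((hFm i).2 ⟨(hFFm i).1 h, h0⟩)
          rw [hFF0 i h2 s, norm_zero, ite_self]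
      rw [h1a]
      refine Finset.sum_congr rfl fun i hi => ?_
      have h0 := ((hFm i).1 hi).2
      by_cases h2 : m ≤ lv i
      · rw [if_pos ⟨h0, h2⟩, if_pos h2]
      · rw [if_neg (fun h => h2 h.2), if_neg h2]
    have h2 : ∑ i ∈ F, (if m ≤ lv i then ‖z i s‖ else 0) =
        ∑ l ∈ Finset.Icc m N, ∑ i ∈ G l, ‖z i s‖ := by
      rw [← Finset.sum_filter, ← Finset.sum_fiberwise_of_maps_to (s := F.filter fun i => m ≤ lv i)
        (t := Finset.Icc m N) (g := lv) (fun i hi => by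
          rw [Finset.mem_filter] at hi
          exact Finset.mem_Icc.2 ⟨hi.2, ((hFm i).1 hi.1).1⟩)]
      refine Finset.sum_congr rfl fun l hl => ?_
      rw [Finset.mem_Icc] at hl
      refine Finset.sum_congr ?_ fun _ _ => rfl
      ext i
      rw [Finset.mem_filter, Finset.mem_filter, hFm, hGm]
      constructor
      · exact fun h => ⟨h.1.1.2, h.2⟩
      · rintro ⟨h0, rfl⟩
        exact ⟨⟨⟨hl.2, h0⟩, hl.1⟩, rfl⟩
    rw [h1, h2, ← Finset.Ioc_insert_left hmN, Finset.sum_insert (by simp)]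
    refine add_le_add le_rfl (Finset.sum_le_sum fun l hl => ?_)
    rw [← nsmul_eq_mul]
    refine Finset.sum_le_card_nsmul _ _ _ fun i hi => ?_
    have hi' := (hGm l i).1 hi
    have hlN : l ≤ N := (Finset.mem_Ioc.1 hl).2
    have := hgood i ((hFm i).2 ⟨by rw [hi'.2]; exact hlN, hi'.1⟩) s hs
    rwa [hi'.2] at this
  have hbnd := hC m (G m) (fun i => σ i) (S m) θ (hm m S) η (fun i s => z i s)
    (fun i s => ∑ p ∈ Q i, c (i : I) p.1 p.2 * z p.1 s * z p.2 s)
    (fun i s => ∑ p ∈ Q i, (c (i : I) p.1 p.2 * dz p.1 s * z p.2 s +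
      c (i : I) p.1 p.2 * z p.1 s * dz p.2 s))
    (fun i s => qd c (fun a => z a s) (i : I) -
      ∑ p ∈ Q i, c (i : I) p.1 p.2 * z p.1 s * z p.2 s)
    (by rw [Fintype.card_coe])
    (fun i => (hKer.unit _).resolve_left ((hGm m _).1 i.2).1) (hS1 m) hθ.1 hθ.2 (hhm0 m) hη0
    (by
      intro i s hs
      have hoi : lv (i : I) = m := ((hGm m _).1 i.2).2
      have h1 := (hz.deriv (i : I) (by rw [hoi]; exact hmN) s (hsub hs)).mono hsub
      refine h1.congr_deriv ?_
      have hSi : S (lv (i : I)) = S m := congrArg S hoi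
      show Complex.I * ((S (lv (i : I)) * σ i : ℝ) : ℂ) * z i s +
        qd c (fun a => z a s) (i : I) = _
      rw [hSi]
      ring)
    (by
      intro i s hs
      refine HasDerivWithinAt.fun_sum fun p _ => ?_
      have h1 := ((hder p.1 s (hsub hs)).mono hsub).const_mul (c (i : I) p.1 p.2)
      exact h1.mul ((hder p.2 s (hsub hs)).mono hsub))
    (by
      intro i s hs
      have hi : hb lv σ R c Q S (i : I) ≤ hm m S :=
        Finset.single_le_sum (f := fun w => hb lv σ R c Q S w)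
          (fun w _ => hb_nonneg lv σ R hR1 c Q S w) i.2
      have hs60 := hsub hs
      constructor
      · refine le_trans (norm_sum_le _ _) (le_trans (Finset.sum_le_sum fun p _ => ?_) hi)
        have e1 := hone p.1 s hs60
        have e2 := hone p.2 s hs60
        have e3 := spd_nonneg lv σ R hR1 S p.1
        have e4 := spd_nonneg lv σ R hR1 S p.2
        rw [norm_mul, norm_mul, mul_assoc]
        refine mul_le_mul_of_nonneg_left ?_ (norm_nonneg _)
        have e5 : ‖z p.1 s‖ * ‖z p.2 s‖ ≤ 1 := mul_le_one₀ e1 (norm_nonneg _) e2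
        linarith
      · refine le_trans (norm_sum_le _ _) (le_trans (Finset.sum_le_sum fun p _ => ?_) hi)
        have e1 := hone p.1 s hs60
        have e2 := hone p.2 s hs60
        have e3 := hdzb p.1 s hs60
        have e4 := hdzb p.2 s hs60
        have e5 : ‖dz p.1 s‖ * ‖z p.2 s‖ ≤ spd lv σ R S p.1 :=
          (mul_le_of_le_one_right (norm_nonneg _) e2).trans e3
        have e6 : ‖z p.1 s‖ * ‖dz p.2 s‖ ≤ spd lv σ R S p.2 :=
          (mul_le_of_le_one_left (norm_nonneg _) e1).trans e4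
        refine (norm_add_le _ _).trans ?_
        rw [norm_mul, norm_mul, norm_mul, norm_mul, mul_assoc, mul_assoc, ← mul_add]
        refine mul_le_mul_of_nonneg_left ?_ (norm_nonneg _)
        linarith)
    (by
      intro i s hs
      have hoi := (hGm m _).1 i.2
      have h1 := hQ3 (i : I) hoi.1 _ (hadm s (hsub hs))
      rw [hoi.2] at h1
      refine h1.trans ?_
      have h2 := mul_le_mul_of_nonneg_left (htail s hs) (hR0 m)
      rw [mul_add] at h2
      rw [Finset.sum_coe_sort (G m) (fun i => ‖z i s‖)]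
      exact h2)
    (fun i => hz0 _ ((hGm m _).1 i.2).1) ⟨j, (hGm m j).2 ⟨hσj, rfl⟩⟩ t ht
  refine hbnd.trans ?_
  have h1 : C m * (hm m S / S m) ≤ b m / 8 := by
    have hSpos : 0 < S m := zero_lt_one.trans_le (hS1 m)
    have h2 := hSh m
    rw [div_le_iff₀ (hbpos m)] at h2
    rw [← mul_div_assoc, div_le_div_iff₀ hSpos (by norm_num)]
    linarith
  have h2 : C m * η ≤ b m / 8 := by
    have := hbsum m N
    rw [hη, ← mul_assoc]
    exact this
  rw [mul_add]
  have := hbpos m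
  show _ ≤ b m / 2
  linarith

end Pool.Agent.Y502.EM.Boot
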